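import Pool.Agent.helper49.SP.SpecAS

/-! sp:ASAC2, case (ii) at one scale. -/

namespace TP

open DP MeasureTheory

lemma AC2_PS_mono (i : ℕ) (A B : Set V → Prop) (h : ∀ X, A X → B X) : PS i A ≤ PS i B := by
  classical
  unfold PS PSF
  refine Finset.sum_le_sum fun T _ => ?_
  by_cases hA : A (T : Set V)
  · rw [if_pos hA, if_pos (h _ hA)]
  · rw [if_neg hA]
    split_ifs
    · positivity
    · exact le_rfl

lemma AC2_PS_union (i : ℕ) {ι : Type} (s : Finset ι) (A : ι → Set V → Prop) (B : Set V → Prop)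
    (h : ∀ X, B X → ∃ j ∈ s, A j X) : PS i B ≤ ∑ j ∈ s, PS i (A j) := by
  classical
  unfold PS PSF
  rw [Finset.sum_comm]
  refine Finset.sum_le_sum fun T _ => ?_
  by_cases hB : B (T : Set V)
  · rw [if_pos hB]
    obtain ⟨j, hj, hA⟩ := h _ hB
    have h1 : (if A j (T : Set V) then fh (Fc i) T ^ 2 else 0) ≤
        ∑ j ∈ s, if A j (T : Set V) then fh (Fc i) T ^ 2 else 0 :=
      Finset.single_le_sum (f := fun j => if A j (T : Set V) then fh (Fc i) T ^ 2 else 0)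
        (fun j _ => by split_ifs; positivity; exact le_rfl) hj
    rw [if_pos hA] at h1
    exact h1
  · rw [if_neg hB]
    exact Finset.sum_nonneg fun j _ => by split_ifs; positivity; exact le_rfl

lemma AC2_PPv_mono (i : ℕ) (A B : Set V → Prop) (h : ∀ X, A X → B X) : PPv i A ≤ PPv i B := by
  unfold PPv Pr
  have : IsProbabilityMeasure P1 := by unfold P1; infer_instance
  exact measureReal_mono (fun b hb => h _ hb)

lemma AC2_exp (A c δ : ℝ) (hc : 0 < c) (hδ : 0 < δ) : ∃ x₀ : ℝ, 0 < x₀ ∧ ∀ x ≥ x₀, A * Real.exp (-(c * x)) ≤ δ := by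
  have h1 : Filter.Tendsto (fun x : ℝ => Real.exp (-(c * x))) Filter.atTop (nhds 0) :=
    Real.tendsto_exp_neg_atTop_nhds_zero.comp (Filter.tendsto_id.const_mul_atTop hc)
  have h2 : Filter.Tendsto (fun x : ℝ => A * Real.exp (-(c * x))) Filter.atTop (nhds 0) := by
    simpa using h1.const_mul A
  have h3 := (h2.eventually (ge_mem_nhds hδ)).and (Filter.eventually_gt_atTop (0 : ℝ))
  obtain ⟨x₀, hx₀⟩ := Filter.eventually_atTop.mp h3
  exact ⟨x₀, (hx₀ x₀ le_rfl).2, fun x hx => (hx₀ x hx).1⟩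

lemma AC2_rat (C : ℝ) (kQ : ℕ) (hC : 1 ≤ C) (ha4 : ∀ p q, 0 ≤ a4 p q ∧ a4 p q ≤ 1)
    (ha6 : ∀ p q, 0 ≤ a6 p q ∧ a6 p q ≤ a4 p q)
    (hpos : ∀ p m, kQ ≤ p → 1 ≤ a4 p (p + m) * C ^ (m + 1))
    (hcmp : ∀ p q, kQ ≤ p → p + 2 < q → a4 (p + 1) (q - 1) ≤ C * a4 p q)
    (s p m : ℕ) (hp : kQ ≤ p) (hm : 3 ≤ m) : 0 ≤ rat p m s ∧ rat p m s ≤ C ^ 2 := by
  have hx : 0 < a4 p (p + m) := by
    have := hpos p m hp
    have hC' : 0 < C ^ (m + 1) := by positivity
    by_contra hcon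
    push Not at hcon
    nlinarith
  have hy : 0 < a4 (p + m + 3 * s) (p + m + 3 * s + m) := by
    have := hpos (p + m + 3 * s) m (by omega)
    have hC' : 0 < C ^ (m + 1) := by positivity
    by_contra hcon
    push Not at hcon
    nlinarith
  have h1 : a6 (p + 1) (p + m - 1) ≤ C * a4 p (p + m) :=
    (ha6 _ _).2.trans (hcmp p (p + m) hp (by omega))
  have h2 : a6 (p + m + 3 * s + 1) (p + m + 3 * s + m - 1) ≤
      C * a4 (p + m + 3 * s) (p + m + 3 * s + m) :=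
    (ha6 _ _).2.trans (hcmp (p + m + 3 * s) (p + m + 3 * s + m) (by omega) (by omega))
  have h3 := (ha6 (p + 1) (p + m - 1)).1
  have h4 : a6 (p + 1) (p + m - 1) ≤ 1 := (ha6 _ _).2.trans (ha4 _ _).2
  have h5 := (ha6 (p + m + 3 * s + 1) (p + m + 3 * s + m - 1)).1
  unfold rat
  constructor
  · positivity
  · rw [div_le_iff₀ (by positivity)]
    have h6 : a6 (p + 1) (p + m - 1) ^ 2 ≤ C * a4 p (p + m) := by nlinarith
    calc a6 (p + 1) (p + m - 1) ^ 2 * a6 (p + m + 3 * s + 1) (p + m + 3 * s + m - 1)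
        ≤ (C * a4 p (p + m)) * (C * a4 (p + m + 3 * s) (p + m + 3 * s + m)) :=
          mul_le_mul h6 h2 h5 (by positivity)
      _ = C ^ 2 * (a4 p (p + m) * a4 (p + m + 3 * s) (p + m + 3 * s + m)) := by ring

/-- semantics of one pattern -/
lemma AC2_sem (hF3 : ASF3_stmt) (X : Set V) (z : ℤ × ℤ) (x : V) (h : Bool) (t k₁ m s l : ℕ)
    (hx : x = (z.1 * (2 ^ t : ℕ), z.2 * (2 ^ t : ℕ))) (hm : 4 ≤ m) :
    (¬ satC (2 ^ t) X (fNP z h (2 ^ (k₁ + l * (m + 3 * s) + 2) : ℕ)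
      (2 ^ (k₁ + l * (m + 3 * s) + m + s) : ℕ)
      (2 ^ (k₁ + l * (m + 3 * s) + m + 3 * s + m - 2) : ℕ)) → PairW X h x (pl t k₁ m s l) m s) ∧
    (satO (2 ^ t) X (fNP z h (2 ^ (k₁ + l * (m + 3 * s) + 2) : ℕ)
      (2 ^ (k₁ + l * (m + 3 * s) + m + s) : ℕ)
      (2 ^ (k₁ + l * (m + 3 * s) + m + 3 * s + m - 2) : ℕ)) → ¬ PairS X h x (pl t k₁ m s l) m s) := by
  have key := hF3 (2 ^ t) X z x h (2 ^ (k₁ + l * (m + 3 * s) + 1))
    (2 ^ (k₁ + l * (m + 3 * s) + m + s)) (2 ^ (k₁ + l * (m + 3 * s) + m + 3 * s + m - 2))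
    Nat.one_le_two_pow hx Nat.one_le_two_pow
    (by
      rw [show (8 : ℕ) = 2 ^ 3 from rfl, ← pow_add]
      exact Nat.pow_le_pow_right (by norm_num) (by omega))
    (by
      rw [show (4 : ℕ) = 2 ^ 2 from rfl, ← pow_add]
      exact Nat.pow_le_pow_right (by norm_num) (by omega))
  have e1 : (((2 ^ (k₁ + l * (m + 3 * s) + 2) : ℕ)) : ℤ) =
      2 * (((2 ^ (k₁ + l * (m + 3 * s) + 1) : ℕ)) : ℤ) := by
    push_cast; ring
  rw [e1]
  have p1 : 2 * 2 ^ (k₁ + l * (m + 3 * s) + 1) * 2 ^ t = 2 ^ (pl t k₁ m s l + 2) := by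
    unfold pl
    rw [← pow_succ', ← pow_add]; congr 1; omega
  have p2 : 2 ^ (k₁ + l * (m + 3 * s) + m + s) * 2 ^ t = 2 ^ (pl t k₁ m s l + m + s) := by
    unfold pl
    rw [← pow_add]; congr 1; omega
  have p3 : 2 ^ (k₁ + l * (m + 3 * s) + m + 3 * s + m - 2) * 2 ^ t =
      2 ^ (pl t k₁ m s l + m + 3 * s + m - 2) := by
    unfold pl
    rw [← pow_add]; congr 1; omega
  have p4 : 2 ^ (k₁ + l * (m + 3 * s) + 1) * 2 ^ t = 2 ^ (pl t k₁ m s l + 1) := by
    unfold pl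
    rw [← pow_add]; congr 1; omega
  have p5 : 2 * 2 ^ (k₁ + l * (m + 3 * s) + m + 3 * s + m - 2) * 2 ^ t =
      2 ^ (pl t k₁ m s l + m + 3 * s + m - 1) := by
    unfold pl
    rw [← pow_succ', ← pow_add]; congr 1; omega
  rw [p1, p2, p3, p4, p5] at key
  refine ⟨fun hn => ?_, fun hs hP => key.2 hs hP⟩
  rw [key.1, not_not] at hn
  exact hn

theorem AC2 : AC2_stmt := by
  intro hU2 hS2 hU1 hQA hF1 hF3 δ K hδ hK
  obtain ⟨ha4, ha6, CQ, kQ, hCQ, hpos, hcmp⟩ := hQA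
  obtain ⟨c2, kU, hc2, hU⟩ := hU2
  obtain ⟨kS, hS⟩ := hS2 hU1
  refine ⟨kQ + kU + kS + 4, fun s hs => ?_⟩
  obtain ⟨C2, hC2, hU'⟩ := hU s (by omega)
  obtain ⟨C1, c1, hC1, hc1, hS'⟩ := hS s (by omega)
  obtain ⟨L, hL, hL'⟩ := AC2_exp C1 c1 δ hc1 hδ
  have hB : (0 : ℝ) < CQ ^ 2 := by positivity
  obtain ⟨x₀, hx₀, hx₀'⟩ := AC2_exp (2 * C2 * K ^ 3 * (L + CQ ^ 2)) c2 δ hc2 hδ
  obtain ⟨n₀, hn₀⟩ := exists_nat_ge x₀
  have hrat : ∀ p m : ℕ, kQ + kU + kS + 4 ≤ p → kQ + kU + kS + 4 ≤ m →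
      0 ≤ rat p m s ∧ rat p m s ≤ CQ ^ 2 := fun p m hp hm =>
    AC2_rat CQ kQ hCQ ha4 ha6 hpos hcmp s p m (by omega) (by omega)
  refine ⟨L, CQ ^ 2, kQ + kU + kS + 4 + n₀, hL, hB, by omega, hrat, ?_⟩
  intro i k t k₁ m Λ z x ht hm hk₁ hsp hfit hx hpar hbulk hty hsumL hsumU
  have ha0 : 0 ≤ a4 t (i - k) := (ha4 _ _).1
  constructor
  · -- spectral sample
    have hunion := AC2_PS_union i (Λ ×ˢ (Finset.univ : Finset Bool))
      (fun j X => (∃ v ∈ X, sd x v ≤ 2 ^ t) ∧ PairW X j.2 x (pl t k₁ m s j.1) m s)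
      (fun X => (∃ v ∈ X, sd x v ≤ 2 ^ t) ∧ ¬ satC (2 ^ t) X (psiII k₁ m s Λ z)) (by
        rintro X ⟨hX, hn⟩
        unfold psiII at hn
        rw [((hF1 (2 ^ t) X).2.2 _).1] at hn
        push Not at hn
        obtain ⟨φ, hφ, hφn⟩ := hn
        rw [List.mem_map] at hφ
        obtain ⟨l, hl, rfl⟩ := hφ
        rw [Finset.mem_toList] at hl
        by_cases h1 : satC (2 ^ t) X (fNP z true (2 ^ (k₁ + l * (m + 3 * s) + 2) : ℕ)
            (2 ^ (k₁ + l * (m + 3 * s) + m + s) : ℕ)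
            (2 ^ (k₁ + l * (m + 3 * s) + m + 3 * s + m - 2) : ℕ))
        · have h2 : ¬ satC (2 ^ t) X (fNP z false (2 ^ (k₁ + l * (m + 3 * s) + 2) : ℕ)
            (2 ^ (k₁ + l * (m + 3 * s) + m + s) : ℕ)
            (2 ^ (k₁ + l * (m + 3 * s) + m + 3 * s + m - 2) : ℕ)) := fun h2 => hφn ⟨h1, h2⟩
          exact ⟨(l, false), Finset.mem_product.mpr ⟨hl, Finset.mem_univ _⟩, hX,
            (AC2_sem hF3 X z x false t k₁ m s l hx (by omega)).1 h2⟩
        · exact ⟨(l, true), Finset.mem_product.mpr ⟨hl, Finset.mem_univ _⟩, hX,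
            (AC2_sem hF3 X z x true t k₁ m s l hx (by omega)).1 h1⟩)
    refine hunion.trans ?_
    rw [Finset.sum_product]
    have hterm : ∀ l ∈ Λ, ∑ b : Bool, PS i (fun X => (∃ v ∈ X, sd x v ≤ 2 ^ t) ∧
        PairW X b x (pl t k₁ m s l) m s) ≤
        2 * (C2 * Real.exp (-(c2 * m)) * (K ^ 3 * rat (pl t k₁ m s l) m s) * a4 t (i - k)) := by
      intro l hl
      have hpl1 : pl t k₁ m s (l + 1) = pl t k₁ m s l + m + 3 * s := by
        unfold pl; ring
      have hpl3 : pl t k₁ m s (l + 3) = pl t k₁ m s l + m + 3 * s + m + 3 * s + m + 3 * s := by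
        unfold pl; ring
      have hpl0 : t + k₁ ≤ pl t k₁ m s l := by unfold pl; omega
      have hfl := hfit l hl
      rw [hpl3] at hfl
      have hb : ∀ b : Bool, PS i (fun X => (∃ v ∈ X, sd x v ≤ 2 ^ t) ∧
          PairW X b x (pl t k₁ m s l) m s) ≤ C2 * Real.exp (-(c2 * m)) *
          (a4 (pl t k₁ m s l) (pl t k₁ m s l + m) ^ 3 *
            a4 (pl t k₁ m s l + m + 3 * s) (pl t k₁ m s l + m + 3 * s + m)) * a4 t (i - k) := by
        intro b
        exact hU' i k t (pl t k₁ m s l) m b x (by omega) (by omega) (by omega) (by omega) hpar hbulk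
      -- comparison with `rat`
      obtain ⟨hty1, hty2⟩ := hty l hl
      rw [hpl1] at hty2
      set x1 := a4 (pl t k₁ m s l) (pl t k₁ m s l + m) with hx1
      set x2 := a4 (pl t k₁ m s l + m + 3 * s) (pl t k₁ m s l + m + 3 * s + m) with hx2
      set y1 := a6 (pl t k₁ m s l + 1) (pl t k₁ m s l + m - 1) with hy1
      set y2 := a6 (pl t k₁ m s l + m + 3 * s + 1) (pl t k₁ m s l + m + 3 * s + m - 1) with hy2
      have hx1p : 0 < x1 := by
        have := hpos (pl t k₁ m s l) m (by omega)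
        have hC' : 0 < CQ ^ (m + 1) := by positivity
        by_contra hcon
        push Not at hcon
        nlinarith
      have hx2p : 0 < x2 := by
        have := hpos (pl t k₁ m s l + m + 3 * s) m (by omega)
        have hC' : 0 < CQ ^ (m + 1) := by positivity
        by_contra hcon
        push Not at hcon
        nlinarith
      have hr : x1 ^ 3 * x2 ≤ K ^ 3 * rat (pl t k₁ m s l) m s := by
        have hrd : rat (pl t k₁ m s l) m s = y1 ^ 2 * y2 / (x1 * x2) := rfl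
        rw [hrd, ← mul_div_assoc, le_div_iff₀ (by positivity)]
        have h1 : x1 ^ 2 ≤ K * y1 := by
          rw [div_le_iff₀ hK] at hty1
          linarith
        have h2 : x2 ^ 2 ≤ K * y2 := by
          rw [div_le_iff₀ hK] at hty2
          linarith
        have h3 : (x1 ^ 2) ^ 2 ≤ (K * y1) ^ 2 := by
          apply pow_le_pow_left₀ (by positivity) h1
        calc x1 ^ 3 * x2 * (x1 * x2) = (x1 ^ 2) ^ 2 * x2 ^ 2 := by ring
          _ ≤ (K * y1) ^ 2 * (K * y2) := mul_le_mul h3 h2 (by positivity) (by positivity)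
          _ = K ^ 3 * (y1 ^ 2 * y2) := by ring
      have hb' : ∀ b : Bool, PS i (fun X => (∃ v ∈ X, sd x v ≤ 2 ^ t) ∧
          PairW X b x (pl t k₁ m s l) m s) ≤
          C2 * Real.exp (-(c2 * m)) * (K ^ 3 * rat (pl t k₁ m s l) m s) * a4 t (i - k) := by
        intro b
        refine (hb b).trans ?_
        refine mul_le_mul_of_nonneg_right ?_ ha0
        exact mul_le_mul_of_nonneg_left hr (by positivity)
      rw [Fintype.sum_bool]
      linarith [hb' true, hb' false]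
    refine (Finset.sum_le_sum hterm).trans ?_
    have hE : ∑ l ∈ Λ, 2 * (C2 * Real.exp (-(c2 * m)) * (K ^ 3 * rat (pl t k₁ m s l) m s) *
        a4 t (i - k)) = (2 * C2 * K ^ 3 * (∑ l ∈ Λ, rat (pl t k₁ m s l) m s) *
          Real.exp (-(c2 * m))) * a4 t (i - k) := by
      rw [Finset.mul_sum, Finset.sum_mul, Finset.sum_mul]
      refine Finset.sum_congr rfl fun l _ => ?_
      ring
    rw [hE]
    refine mul_le_mul_of_nonneg_right ?_ ha0
    have hm' : x₀ ≤ (m : ℝ) := by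
      refine hn₀.trans ?_
      exact_mod_cast (by omega : n₀ ≤ m)
    refine le_trans ?_ (hx₀' m hm')
    refine mul_le_mul_of_nonneg_right ?_ (Real.exp_pos _).le
    exact mul_le_mul_of_nonneg_left hsumU (by positivity)
  · -- pivotal set
    have h2 : 2 * 2 ^ t = 2 ^ (t + 1) := by rw [pow_succ']
    refine (AC2_PPv_mono i _ (fun X => (∃ v ∈ X, sd x v ≤ 2 ^ (t + 1)) ∧
        ∀ l ∈ Λ, ¬ PairS X true x (pl t k₁ m s l) m s ∧ ¬ PairS X false x (pl t k₁ m s l) m s)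
      ?_).trans ?_
    · rintro X ⟨hX, hsat⟩
      rw [h2] at hX
      refine ⟨hX, fun l hl => ?_⟩
      unfold psiII at hsat
      rw [((hF1 (2 ^ t) X).2.2 _).2] at hsat
      have hl' := hsat _ (List.mem_map.mpr ⟨l, Finset.mem_toList.mpr hl, rfl⟩)
      exact ⟨(AC2_sem hF3 X z x true t k₁ m s l hx (by omega)).2 hl'.1,
        (AC2_sem hF3 X z x false t k₁ m s l hx (by omega)).2 hl'.2⟩
    · have hne : Λ.Nonempty := by
        rw [Finset.nonempty_iff_ne_empty]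
        rintro rfl
        rw [Finset.sum_empty] at hsumL
        linarith
      refine (hS' i k t k₁ m Λ x (by omega) (by omega) (by omega) hne hsp hfit hpar hbulk).trans ?_
      exact mul_le_mul_of_nonneg_right (hL' _ hsumL) ha0

end TP
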