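import Pool.Agent.helper2.SP.SpecTA

/-!
# Module TA15: number of crossing clusters
-/

set_option autoImplicit false

namespace TP.TA

open DP MeasureTheory

theorem TA15_fl {c : V → Bool} {R : Set V} {u v : V} :
    Conn c false R u v ↔ Conn (fl c) true R u v := by
  have h : {w | w ∈ R ∧ c w = false} = {w | w ∈ R ∧ fl c w = true} := by
    ext w
    show (w ∈ R ∧ c w = false) ↔ (w ∈ R ∧ (!(c w)) = true)
    rw [Bool.not_eq_true']
  unfold Conn
  rw [h]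

theorem TA15_sub {c : V → Bool} {x : V} {m n : ℕ} {K : Set V} (h : WC c x m n K) :
    K ⊆ ann x m n := by
  obtain ⟨u, _, _, rfl⟩ := h
  intro v hv
  exact Conn.mem_right hv

theorem TA15_eq {c : V → Bool} {x : V} {m n : ℕ} {K K' : Set V} (h : WC c x m n K)
    (h' : WC c x m n K') {z : V} (hz : z ∈ K) (hz' : z ∈ K') : K = K' := by
  obtain ⟨u, _, _, rfl⟩ := h
  obtain ⟨u', _, _, rfl⟩ := h'
  have h1 : Conn c false (ann x m n) u u' := Conn.trans hz (Conn.symm hz')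
  ext v
  exact ⟨fun hv => Conn.trans h1.symm hv, fun hv => Conn.trans h1 hv⟩

theorem TA15_small {c : V → Bool} {x : V} {m m₁ n₁ n : ℕ} {K : Set V} (h1 : m ≤ m₁)
    (h2 : m₁ ≤ n₁) (h3 : n₁ ≤ n) (h : WC c x m n K) : ∃ L, WC c x m₁ n₁ L ∧ L ⊆ K ∧ L.Nonempty := by
  obtain ⟨u, hu, ⟨u', hu', hc⟩, rfl⟩ := h
  have hu1 : sd x u ≤ m₁ := by
    have : sd x u = m := hu
    omega
  have hu2 : n₁ ≤ sd x u' := by
    have : sd x u' = n := hu'
    omega
  obtain ⟨p, q, hp, hq, hpq, hup, -⟩ := Con.cross (x := x) hc hu1 h2 hu2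
  have hpq' : Conn c false (ann x m₁ n₁) p q := by
    refine Con.mono ?_ hpq
    rintro z ⟨⟨_, hz⟩, hz'⟩
    exact ⟨hz', hz⟩
  refine ⟨{v | Conn c false (ann x m₁ n₁) p v}, ⟨p, hp, ⟨q, hq, hpq'⟩, rfl⟩, ?_, ⟨p, ?_⟩⟩
  · intro v hv
    have hv' : Conn c false (ann x m n) p v := by
      refine Conn.mono ?_ hv
      intro z hz
      exact ⟨h1.trans hz.1, hz.2.trans h3⟩
    exact Conn.trans hup hv'
  · exact DP.Con.refl hpq'.1

/-- The finite set of the white crossing clusters. -/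
theorem TA15_nW (c : V → Bool) (x : V) (m n : ℕ) :
    ∃ S : Finset (Set V), nW c x m n = S.card ∧ ∀ K, K ∈ S ↔ WC c x m n K := by
  classical
  refine ⟨_, rfl, fun K => ?_⟩
  rw [Finset.mem_filter]
  refine ⟨fun h => h.2, fun h => ⟨?_, h⟩⟩
  have hf : K.Finite := (DP.ann_finite x m n).subset (TA15_sub h)
  simp only [Finset.bind_def, Finset.mem_sup, Finset.pure_def, Finset.mem_singleton]
  refine ⟨hf.toFinset, ?_, hf.coe_toFinset.symm⟩
  rw [Finset.mem_powerset]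
  exact fun v hv => N3_memA.2 (TA15_sub h (hf.mem_toFinset.1 hv))

theorem TA15_three {c : V → Bool} {x : V} {m n : ℕ} : 3 ≤ nW c x m n ↔
    ∃ K₁ K₂ K₃ : Set V, WC c x m n K₁ ∧ WC c x m n K₂ ∧ WC c x m n K₃ ∧ K₁ ≠ K₂ ∧ K₁ ≠ K₃ ∧
      K₂ ≠ K₃ := by
  classical
  obtain ⟨S, hS, hm⟩ := TA15_nW c x m n
  rw [hS, Nat.succ_le_iff, Finset.two_lt_card]
  constructor
  · rintro ⟨a, ha, b, hb, d, hd, h1, h2, h3⟩
    exact ⟨a, b, d, (hm a).1 ha, (hm b).1 hb, (hm d).1 hd, h1, h2, h3⟩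
  · rintro ⟨K₁, K₂, K₃, w1, w2, w3, h1, h2, h3⟩
    exact ⟨K₁, (hm _).2 w1, K₂, (hm _).2 w2, K₃, (hm _).2 w3, h1, h2, h3⟩

theorem TA15_self {c : V → Bool} {R : Set V} {u v : V} (h : Conn c false R u v) :
    Conn c false R u u := DP.Con.refl h.1

theorem TA15 : TA15_stmt := by
  refine ⟨?_, ?_, ?_, ?_⟩
  · intro c x m n
    rw [TA15_three]
    constructor
    · rintro ⟨K₁, K₂, K₃, ⟨u, hu, ⟨u', hu', hcu⟩, rfl⟩, ⟨v, hv, ⟨v', hv', hcv⟩, rfl⟩,
        ⟨w, hw, ⟨w', hw', hcw⟩, rfl⟩, h1, h2, h3⟩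
      have key : ∀ a b : V, {z | Conn c false (ann x m n) a z} ≠
          {z | Conn c false (ann x m n) b z} → ¬ Conn (fl c) true (ann x m n) a b := by
        intro a b hne hab
        rw [← TA15_fl] at hab
        apply hne
        ext z
        exact ⟨fun hz => Conn.trans hab.symm hz, fun hz => Conn.trans hab hz⟩
      exact ⟨u, hu, v, hv, w, hw, ⟨u', hu', TA15_fl.1 hcu⟩, ⟨v', hv', TA15_fl.1 hcv⟩,
        ⟨w', hw', TA15_fl.1 hcw⟩, key _ _ h1, key _ _ h3, key _ _ h2⟩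
    · rintro ⟨u, hu, v, hv, w, hw, ⟨u', hu', hcu⟩, ⟨v', hv', hcv⟩, ⟨w', hw', hcw⟩, h1, h2, h3⟩
      rw [← TA15_fl] at hcu hcv hcw h1 h2 h3
      have key : ∀ a b : V, ¬ Conn c false (ann x m n) a b → Conn c false (ann x m n) b b →
          {z | Conn c false (ann x m n) a z} ≠ {z | Conn c false (ann x m n) b z} := by
        intro a b hab hbb heq
        apply hab
        have hb : b ∈ {z | Conn c false (ann x m n) b z} := hbb
        rw [← heq] at hb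
        exact hb
      exact ⟨_, _, _, ⟨u, hu, ⟨u', hu', hcu⟩, rfl⟩, ⟨v, hv, ⟨v', hv', hcv⟩, rfl⟩,
        ⟨w, hw, ⟨w', hw', hcw⟩, rfl⟩, key u v h1 (TA15_self hcv), key u w h3 (TA15_self hcw),
        key v w h2 (TA15_self hcw)⟩
  · intro c x m n K hK
    rw [TA15_three]
    constructor
    · rintro ⟨K₁, K₂, K₃, w1, w2, w3, h1, h2, h3⟩
      by_cases e1 : K = K₁
      · subst e1
        exact ⟨K₂, K₃, w2, w3, h1, h2, h3⟩
      · by_cases e2 : K = K₂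
        · subst e2
          exact ⟨K₁, K₃, w1, w3, e1, h3, h2⟩
        · exact ⟨K₁, K₂, w1, w2, e1, e2, h1⟩
    · rintro ⟨K₂, K₃, w2, w3, h1, h2, h3⟩
      exact ⟨K, K₂, K₃, hK, w2, w3, h1, h2, h3⟩
  · intro c x m m₁ n₁ n h1 h2 h3
    classical
    have hex : ∀ K : Set V, ∃ L : Set V, WC c x m n K →
        (WC c x m₁ n₁ L ∧ L ⊆ K ∧ L.Nonempty) := by
      intro K
      by_cases hK : WC c x m n K
      · obtain ⟨L, hL⟩ := TA15_small h1 h2 h3 hK
        exact ⟨L, fun _ => hL⟩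
      · exact ⟨∅, fun h => absurd h hK⟩
    choose f hf using hex
    obtain ⟨S, hS, hm⟩ := TA15_nW c x m n
    obtain ⟨S', hS', hm'⟩ := TA15_nW c x m₁ n₁
    rw [hS, hS']
    refine Finset.card_le_card_of_injOn f ?_ ?_
    · intro K hK
      rw [Finset.mem_coe] at hK ⊢
      exact (hm' _).2 (hf K ((hm K).1 hK)).1
    · intro K hK K' hK' heq
      rw [Finset.mem_coe] at hK hK'
      obtain ⟨_, hs, ⟨z, hz⟩⟩ := hf K ((hm K).1 hK)
      obtain ⟨_, hs', _⟩ := hf K' ((hm K').1 hK')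
      have hz' : z ∈ f K' := by rw [← heq]; exact hz
      exact TA15_eq ((hm K).1 hK) ((hm K').1 hK') (hs hz) (hs' hz')
  · rintro c x m m₁ n₁ n h1 h2 h3 ⟨K, K', hK, hK', hne, hB⟩
    obtain ⟨L, hL, hLK, ⟨z, hz⟩⟩ := TA15_small h1 h2 h3 hK
    obtain ⟨L', hL', hLK', _⟩ := TA15_small h1 h2 h3 hK'
    have key : ∀ L K : Set V, WC c x m₁ n₁ L → WC c x m n K → L ⊆ K →
        nbd (ann x m₁ n₁) L ⊆ nbd (ann x m n) K := by
      intro L K hL hK hLK w hw
      obtain ⟨hw1, hw2, y, hy, hyw⟩ := hw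
      refine ⟨⟨h1.trans hw1.1, hw1.2.trans h3⟩, fun hwK => ?_, y, hLK hy, hyw⟩
      apply hw2
      obtain ⟨k, _, _, rfl⟩ := hK
      obtain ⟨l, _, _, rfl⟩ := hL
      have hcw : c w = false := Conn.colour_right hwK
      exact Con.tail hy hyw ⟨hw1, hcw⟩
    refine ⟨L, L', hL, hL', fun h => hne ?_, ?_⟩
    · subst h
      exact TA15_eq hK hK' (hLK hz) (hLK' hz)
    · intro v hv w hw
      exact hB v (key L K hL hK hLK hv) w (key L' K' hL' hK' hLK' hw)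

end TP.TA
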